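import Pool.Agent.H20.SM.Targets
import Pool.Agent.H89.SM.FXYq

/-!
# Board sm_modules, row FXPq: the residue classes `y` modulo `q` with `σ(y) = y`

The proof follows `Pool/Agent/H89/SM/FXYq.lean` of helper89.
-/

set_option autoImplicit false

open NumberField NumberField.InfinitePlace Complex Filter Topology

namespace Pool.Agent.H39.SM

open Pool.Agent.H28.RC Pool.Agent.H25.HK Pool.Agent.H37.CV Pool.Agent.H20.SM

section Core

open scoped Pointwise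

variable {A G : Type*} [CommRing A] [Group G] [MulSemiringAction G A]

/-- two fixed points agree modulo `P` iff they agree modulo `σ P` -/
theorem agreeF {σ : G} {P : Ideal A} {x x' : A}
    (hx : σ • x - x ∈ σ • P) (hx' : σ • x' - x' ∈ σ • P) :
    x - x' ∈ P ↔ x - x' ∈ σ • P := by
  have hs : x - x' ∈ P ↔ σ • x - σ • x' ∈ σ • P := by
    rw [← smul_sub, Ideal.smul_mem_pointwise_smul_iff]
  rw [hs]
  constructor
  · intro h
    have e : x - x' = (σ • x - σ • x') - (σ • x - x) + (σ • x' - x') := by abel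
    rw [e]
    exact add_mem (sub_mem h hx) hx'
  · intro h
    have e : σ • x - σ • x' = (x - x') + (σ • x - x) - (σ • x' - x') := by abel
    rw [e]
    exact sub_mem (add_mem h hx) hx'

variable (I : Ideal A) (Ps : Finset (Ideal A))

/-- no fixed primes -/
theorem coreF [DecidableEq (Ideal A)] (σ : G)
    (hst : ∀ P ∈ Ps, σ • P ∈ Ps) (hst' : ∀ P ∈ Ps, σ⁻¹ • P ∈ Ps) (hfix : ∀ P ∈ Ps, σ • P ≠ P)
    (hI : ∀ P ∈ Ps, I ≤ P) (hI' : ∀ x, (∀ P ∈ Ps, x ∈ P) → x ∈ I)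
    (hfin : ∀ P ∈ Ps, Finite (A ⧸ P))
    (hN : ∀ P ∈ Ps, Nat.card (A ⧸ (σ • P)) = Nat.card (A ⧸ P)) :
    {y : A ⧸ I | ∃ x : A, Ideal.Quotient.mk I x = y ∧ σ • x - x ∈ I}.ncard ^ 2 ≤
      ∏ P ∈ Ps, Nat.card (A ⧸ P) := by
  classical
  obtain ⟨R, hR, hdis, horb⟩ := Pool.Agent.H89.SM.rep σ Ps hfix
  -- agreement on the orbits
  have hag : ∀ x x' : A, σ • x - x ∈ I → σ • x' - x' ∈ I → ∀ P ∈ Ps, ∀ k : ℤ,
      σ ^ k • P ∈ Ps ∧ (x - x' ∈ P ↔ x - x' ∈ σ ^ k • P) := by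
    intro x x' hx hx' P hP k
    induction k using Int.induction_on with
    | zero => simpa using hP
    | succ k ih =>
      have e : σ ^ ((k : ℤ) + 1) • P = σ • (σ ^ (k : ℤ) • P) := by
        rw [← mul_smul, ← zpow_one_add, add_comm]
      rw [e]
      have h1 := hst _ ih.1
      exact ⟨h1, ih.2.trans (agreeF (hI _ h1 hx) (hI _ h1 hx'))⟩
    | pred k ih =>
      have e : σ • (σ ^ (-(k : ℤ) - 1) • P) = σ ^ (-(k : ℤ)) • P := by
        rw [← mul_smul, ← zpow_one_add]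
        congr 2
        ring
      have e' : σ ^ (-(k : ℤ) - 1) • P = σ⁻¹ • (σ ^ (-(k : ℤ)) • P) := by
        rw [← e, inv_smul_smul]
      have h1 : σ ^ (-(k : ℤ) - 1) • P ∈ Ps := by
        rw [e']
        exact hst' _ ih.1
      have h2 := hst _ h1
      refine ⟨h1, ih.2.trans ?_⟩
      rw [← e]
      exact (agreeF (hI _ h2 hx) (hI _ h2 hx')).symm
  set Y : Set (A ⧸ I) :=
    {y : A ⧸ I | ∃ x : A, Ideal.Quotient.mk I x = y ∧ σ • x - x ∈ I} with hY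
  let f : Y → ∀ P : R, A ⧸ P.1 := fun y P =>
    Ideal.Quotient.factor (hI P.1 (hR P.2)) y.1
  have hf : Function.Injective f := by
    rintro ⟨y, x, rfl, hx⟩ ⟨y', x', rfl, hx'⟩ h
    apply Subtype.ext
    rw [Ideal.Quotient.eq]
    refine hI' _ fun P hP => ?_
    obtain ⟨k, hk⟩ := horb P hP
    refine ((hag x x' hx hx' P hP k).2).2 ?_
    have h1 := congrFun h ⟨σ ^ k • P, hk⟩
    simp only [f, Ideal.Quotient.factor_mk] at h1
    exact Ideal.Quotient.eq.1 h1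
  have hfinR : ∀ P : R, Finite (A ⧸ P.1) := fun P => hfin _ (hR P.2)
  have hcard : Y.ncard ≤ ∏ P ∈ R, Nat.card (A ⧸ P) := by
    have h1 := Nat.card_le_card_of_injective f hf
    rw [Nat.card_pi] at h1
    have h2 : ∏ P : R, Nat.card (A ⧸ P.1) = ∏ P ∈ R, Nat.card (A ⧸ P) :=
      Finset.prod_coe_sort R fun P => Nat.card (A ⧸ P)
    rw [h2] at h1
    exact h1
  have hRs : R.image (fun P => σ • P) ⊆ Ps := by
    intro Q hQ
    obtain ⟨P, hP, rfl⟩ := Finset.mem_image.1 hQ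
    exact hst _ (hR hP)
  have himg : ∏ P ∈ R.image (fun P => σ • P), Nat.card (A ⧸ P) = ∏ P ∈ R, Nat.card (A ⧸ P) := by
    rw [Finset.prod_image fun P _ Q _ h => smul_left_cancel σ h]
    exact Finset.prod_congr rfl fun P hP => hN P (hR hP)
  calc Y.ncard ^ 2 ≤ (∏ P ∈ R, Nat.card (A ⧸ P)) ^ 2 := Nat.pow_le_pow_left hcard 2
    _ = (∏ P ∈ R, Nat.card (A ⧸ P)) * ∏ P ∈ R.image (fun P => σ • P), Nat.card (A ⧸ P) := by
        rw [himg, sq]
    _ = ∏ P ∈ R ∪ R.image (fun P => σ • P), Nat.card (A ⧸ P) :=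
        (Finset.prod_union hdis).symm
    _ ≤ ∏ P ∈ Ps, Nat.card (A ⧸ P) := by
        refine Finset.prod_le_prod_of_subset_of_one_le' (Finset.union_subset hR hRs)
          fun P hP _ => ?_
        have := hfin P hP
        exact Nat.card_pos

end Core

open scoped Pointwise in
theorem pf_FXPq (hSPL : Pool.Agent.H20.SM.T_SPL) (hCRT : T_CRT) : T_FXPq := by
  classical
  intro F _ _ _ q hq σ hσ
  obtain ⟨c1, c2, c3, c4, c5, c6⟩ := hCRT F q hq
  set Ps : Finset (Ideal (𝓞 F)) := (pf (qi F q)).image Subtype.val with hPs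
  have hmem : ∀ P, P ∈ Ps ↔ P.IsPrime ∧ ∃ p ∈ q.primeFactors, (p : 𝓞 F) ∈ P := by
    intro P
    rw [hPs, Finset.mem_image]
    constructor
    · rintro ⟨Q, hQ, rfl⟩
      exact ⟨Q.2.1, (c3 Q).1 hQ⟩
    · rintro ⟨hP, p, hp, hpP⟩
      have h0 := ((hSPL F p (hq.2 p hp)).2.1 P hP hpP).1
      exact ⟨⟨P, hP, h0⟩, (c3 _).2 ⟨p, hp, hpP⟩, rfl⟩
  have hpr : ∀ P ∈ Ps, P.IsPrime := fun P hP => ((hmem P).1 hP).1
  have hnorm : ∀ P : Ideal (𝓞 F), P.IsPrime → ∀ p ∈ q.primeFactors, (p : 𝓞 F) ∈ P →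
      Nat.card (𝓞 F ⧸ P) = p := by
    intro P hP p hp hpP
    have := ((hSPL F p (hq.2 p hp)).2.1 P hP hpP).2
    rw [Ideal.absNorm_apply] at this
    exact this
  have hfin : ∀ P ∈ Ps, Finite (𝓞 F ⧸ P) := by
    intro P hP
    obtain ⟨hP1, p, hp, hpP⟩ := (hmem P).1 hP
    refine Nat.finite_of_card_ne_zero ?_
    rw [hnorm P hP1 p hp hpP]
    exact (Nat.prime_of_mem_primeFactors hp).ne_zero
  have hstab : ∀ τ : F ≃ₐ[ℚ] F, ∀ P : Ideal (𝓞 F), ∀ p : ℕ, (p : 𝓞 F) ∈ P →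
      (p : 𝓞 F) ∈ τ • P := by
    intro τ P p hp
    have h1 := Ideal.smul_mem_pointwise_smul τ (p : 𝓞 F) P hp
    have h2 : τ • (p : 𝓞 F) = (p : 𝓞 F) :=
      map_natCast (MulSemiringAction.toRingHom (F ≃ₐ[ℚ] F) (𝓞 F) τ) p
    rwa [h2] at h1
  have hprs : ∀ τ : F ≃ₐ[ℚ] F, ∀ P : Ideal (𝓞 F), P.IsPrime → (τ • P).IsPrime := by
    intro τ P hP
    infer_instance
  have hst : ∀ τ : F ≃ₐ[ℚ] F, ∀ P ∈ Ps, τ • P ∈ Ps := by
    intro τ P hP
    obtain ⟨hP1, p, hp, hpP⟩ := (hmem P).1 hP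
    exact (hmem _).2 ⟨hprs τ P hP1, p, hp, hstab τ P p hpP⟩
  have hI : ∀ P ∈ Ps, qi F q ≤ P := by
    intro P hP
    obtain ⟨hP1, p, hp, hpP⟩ := (hmem P).1 hP
    unfold qi
    rw [Ideal.span_singleton_le_iff_mem]
    obtain ⟨k, hk⟩ := Nat.dvd_of_mem_primeFactors hp
    rw [hk, Nat.cast_mul]
    exact Ideal.mul_mem_right _ _ hpP
  have hI' : ∀ x, (∀ P ∈ Ps, x ∈ P) → x ∈ qi F q := by
    intro x hx
    have h1 : ∀ p ∈ q.primeFactors, (p : 𝓞 F) ∣ x := by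
      intro p hp
      rw [← Ideal.mem_span_singleton]
      exact (hSPL F p (hq.2 p hp)).2.2.1 x fun P hP hpP => hx P ((hmem P).2 ⟨hP, p, hp, hpP⟩)
    have h2 : ∏ p ∈ q.primeFactors, (p : 𝓞 F) ∣ x := by
      refine Finset.prod_dvd_of_coprime ?_ h1
      intro p hp p' hp' hne
      have hc : Nat.Coprime p p' := (Nat.coprime_primes
        (Nat.prime_of_mem_primeFactors hp) (Nat.prime_of_mem_primeFactors hp')).2 hne
      have h3 : IsCoprime (p : ℤ) (p' : ℤ) := Nat.isCoprime_iff_coprime.2 hc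
      have h4 := h3.map (Int.castRingHom (𝓞 F))
      simpa using h4
    unfold qi
    rw [Ideal.mem_span_singleton]
    have h3 : ((∏ p ∈ q.primeFactors, p : ℕ) : 𝓞 F) = (q : 𝓞 F) := by
      rw [Nat.prod_primeFactors_of_squarefree hq.1]
    rw [← h3, Nat.cast_prod]
    exact h2
  have hprod : ∏ P ∈ Ps, Nat.card (𝓞 F ⧸ P) = q ^ Module.finrank ℚ F := by
    have h1 : nS np (pf (qi F q)) = (q : ℝ) ^ Module.finrank ℚ F := by
      rw [← c6]
      exact ((c1 (qi F q) le_rfl).2.1).symm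
    rw [hPs, Finset.prod_image fun P _ Q _ h => Subtype.ext h]
    have h2 : ((∏ P ∈ pf (qi F q), Nat.card (𝓞 F ⧸ P.1) : ℕ) : ℝ) =
        ((q ^ Module.finrank ℚ F : ℕ) : ℝ) := by
      rw [Nat.cast_prod, Nat.cast_pow, ← h1]
      unfold nS np nm
      refine Finset.prod_congr rfl fun P _ => ?_
      rw [Ideal.absNorm_apply]
      rfl
    exact_mod_cast h2
  rw [← hprod]
  refine coreF (qi F q) Ps σ (hst σ) (hst σ⁻¹) (fun P hP h => ?_) hI hI' hfin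
    (fun P hP => ?_)
  · obtain ⟨hP1, p, hp, hpP⟩ := (hmem P).1 hP
    exact hσ ((hSPL F p (hq.2 p hp)).2.2.2 P σ hP1 hpP h)
  · obtain ⟨hP1, p, hp, hpP⟩ := (hmem P).1 hP
    rw [hnorm P hP1 p hp hpP, hnorm _ (hprs σ P hP1) p hp (hstab σ P p hpP)]

end Pool.Agent.H39.SM
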