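import Pool.Agent.H20.SM.Targets
import Pool.Agent.H86.CV.DV

/-!
# Sums over the pairs of ideals of the same norm
-/

set_option autoImplicit false

open NumberField NumberField.InfinitePlace Complex Filter Topology MeasureTheory

namespace Pool.Agent.H39.SM

open Pool.Agent.H20.SM
open Pool.Agent.H28.RC Pool.Agent.H25.HK Pool.Agent.H37.CV
open Pool.Agent.H86.CV Pool.Agent.H76.HK Pool.Agent.H33.DP.DN1

theorem tau_mul_le (a b : ℕ) :
    (a * b).divisors.card ≤ a.divisors.card * b.divisors.card := by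
  rw [Nat.divisors_mul]
  exact Finset.card_mul_le

theorem sum_tau (H : ℕ) (j : ℕ) :
    ∑ N ∈ Finset.Icc 1 H, (N.divisors.card : ℝ) ^ j / N ≤ (1 + Real.log H) ^ (2 ^ j) := by
  induction j with
  | zero =>
    have h1 := harmonic_le_one_add_log H
    rw [harmonic_eq_sum_Icc] at h1
    push_cast at h1
    simpa using h1
  | succ j ih =>
    have h0 : 0 ≤ ∑ N ∈ Finset.Icc 1 H, (N.divisors.card : ℝ) ^ j / N :=
      Finset.sum_nonneg fun _ _ => by positivity
    have h1 : ∀ N ∈ Finset.Icc 1 H, (N.divisors.card : ℝ) ^ (j + 1) / N ≤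
        ∑ x ∈ (Finset.Icc 1 H ×ˢ Finset.Icc 1 H).filter (fun x => x.1 * x.2 = N),
          ((x.1.divisors.card : ℝ) ^ j / x.1) * ((x.2.divisors.card : ℝ) ^ j / x.2) := by
      intro N hN
      rw [Finset.mem_Icc] at hN
      have e : (Finset.Icc 1 H ×ˢ Finset.Icc 1 H).filter (fun x => x.1 * x.2 = N) =
          N.divisorsAntidiagonal := by
        ext x
        rw [Finset.mem_filter, Finset.mem_product, Finset.mem_Icc, Finset.mem_Icc,
          Nat.mem_divisorsAntidiagonal]
        constructor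
        · rintro ⟨-, h⟩
          exact ⟨h, by omega⟩
        · rintro ⟨h, h'⟩
          have ha : 0 < x.1 := Nat.pos_of_ne_zero fun h2 => h' (by rw [← h, h2, zero_mul])
          have hb : 0 < x.2 := Nat.pos_of_ne_zero fun h2 => h' (by rw [← h, h2, mul_zero])
          have ha' : x.1 ≤ N := Nat.le_of_dvd (by omega) ⟨x.2, h.symm⟩
          have hb' : x.2 ≤ N := Nat.le_of_dvd (by omega) ⟨x.1, by rw [mul_comm]; exact h.symm⟩
          exact ⟨⟨⟨ha, by omega⟩, hb, by omega⟩, h⟩
      rw [e]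
      have h2 : ∀ x ∈ N.divisorsAntidiagonal, (N.divisors.card : ℝ) ^ j / N ≤
          ((x.1.divisors.card : ℝ) ^ j / x.1) * ((x.2.divisors.card : ℝ) ^ j / x.2) := by
        intro x hx
        rw [Nat.mem_divisorsAntidiagonal] at hx
        rw [div_mul_div_comm, ← mul_pow, ← Nat.cast_mul x.1 x.2, hx.1]
        have h3 : (N.divisors.card : ℝ) ≤ (x.1.divisors.card : ℝ) * (x.2.divisors.card : ℝ) := by
          rw [← hx.1]
          exact_mod_cast tau_mul_le x.1 x.2
        gcongr
      have h4 := Finset.card_nsmul_le_sum _ _ _ h2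
      have h5 : N.divisorsAntidiagonal.card = N.divisors.card := by
        rw [← Nat.map_div_right_divisors, Finset.card_map]
      rw [h5, nsmul_eq_mul] at h4
      calc (N.divisors.card : ℝ) ^ (j + 1) / N
          = (N.divisors.card : ℝ) * ((N.divisors.card : ℝ) ^ j / N) := by
            rw [pow_succ']; ring
        _ ≤ _ := h4
    calc ∑ N ∈ Finset.Icc 1 H, (N.divisors.card : ℝ) ^ (j + 1) / N
        ≤ ∑ N ∈ Finset.Icc 1 H,
          ∑ x ∈ (Finset.Icc 1 H ×ˢ Finset.Icc 1 H).filter (fun x => x.1 * x.2 = N),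
          ((x.1.divisors.card : ℝ) ^ j / x.1) * ((x.2.divisors.card : ℝ) ^ j / x.2) :=
          Finset.sum_le_sum h1
      _ ≤ ∑ x ∈ Finset.Icc 1 H ×ˢ Finset.Icc 1 H,
          ((x.1.divisors.card : ℝ) ^ j / x.1) * ((x.2.divisors.card : ℝ) ^ j / x.2) := by
          exact Finset.sum_fiberwise_le_sum_of_sum_fiber_nonneg
            (fun y _ => Finset.sum_nonneg fun _ _ => by positivity)
      _ = (∑ N ∈ Finset.Icc 1 H, (N.divisors.card : ℝ) ^ j / N) ^ 2 := by
          rw [sq, Finset.sum_mul_sum, ← Finset.sum_product']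
      _ ≤ ((1 + Real.log H) ^ (2 ^ j)) ^ 2 := pow_le_pow_left₀ h0 ih 2
      _ = (1 + Real.log H) ^ (2 ^ (j + 1)) := by rw [← pow_mul, pow_succ]

section

variable {K : Type} [Field K] [NumberField K]

theorem two_pow_pf (I : Ideal (𝓞 K)) (hI : I ≠ ⊥) :
    (2 : ℝ) ^ (pf I).card ≤ ((Ideal.absNorm I).divisors.card : ℝ) ^ Module.finrank ℚ K := by
  have hN : Ideal.absNorm I ≠ 0 := fun h => hI (Ideal.absNorm_eq_zero_iff.1 h)
  calc (2 : ℝ) ^ (pf I).card ≤
        2 ^ (Module.finrank ℚ K * (Ideal.absNorm I).primeFactors.card) :=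
        pow_le_pow_right₀ (by norm_num) (dv_pf I hI)
    _ = (2 ^ (Ideal.absNorm I).primeFactors.card) ^ Module.finrank ℚ K := by
        rw [← pow_mul, mul_comm]
    _ ≤ ((Ideal.absNorm I).divisors.card : ℝ) ^ Module.finrank ℚ K := by
        refine pow_le_pow_left₀ (by positivity) ?_ _
        exact_mod_cast two_pow_omega_le _ hN

end

theorem pf_SNO : T_SNO := by
  classical
  intro K _ _
  set n := Module.finrank ℚ K with hn
  refine ⟨4, 2 + 2 ^ (4 * n), fun H X hH hX => ?_⟩
  have hlog : 0 ≤ Real.log H := Real.log_nonneg hH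
  have hmaps : ∀ p ∈ X, Ideal.absNorm p.1 ∈ Finset.Icc 1 ⌊H⌋₊ := by
    intro p hp
    obtain ⟨h1, h2, h3, h4⟩ := hX p hp
    rw [Finset.mem_Icc]
    exact ⟨Nat.one_le_iff_ne_zero.2 fun h => h1 (Ideal.absNorm_eq_zero_iff.1 h), Nat.le_floor h4⟩
  rw [← Finset.sum_fiberwise_of_maps_to hmaps]
  have h1 : ∀ N ∈ Finset.Icc 1 ⌊H⌋₊, ∑ p ∈ X.filter (fun p => Ideal.absNorm p.1 = N),
      wt p * (1 + Real.log (nm p.1 * nm p.2)) ^ 2 ≤
      ((N.divisors.card : ℝ) ^ (4 * n) / N) * (4 * (1 + Real.log H) ^ 2) := by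
    intro N hN
    rw [Finset.mem_Icc] at hN
    have hN0 : N ≠ 0 := by omega
    have hN1 : (1 : ℝ) ≤ N := by exact_mod_cast hN.1
    have hNpos : (0 : ℝ) < N := by linarith
    have hNH : (N : ℝ) ≤ H := (Nat.le_floor_iff (by linarith)).1 hN.2
    have h2 : ∀ p ∈ X.filter (fun p => Ideal.absNorm p.1 = N),
        wt p * (1 + Real.log (nm p.1 * nm p.2)) ^ 2 ≤
        ((N.divisors.card : ℝ) ^ (2 * n) / N) * (4 * (1 + Real.log H) ^ 2) := by
      intro p hp
      rw [Finset.mem_filter] at hp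
      obtain ⟨g1, g2, g3, g4⟩ := hX p hp.1
      have e1 : nm p.1 = N := by
        unfold Pool.Agent.H37.CV.nm
        rw [hp.2]
      have e2 : nm p.2 = N := by
        unfold Pool.Agent.H37.CV.nm
        rw [← g3, hp.2]
      have e3 : wt p ≤ (N.divisors.card : ℝ) ^ (2 * n) / N := by
        unfold wt
        rw [e1, e2]
        have e4 : ((N : ℝ) * N) ^ (-(1 / 2) : ℝ) = (N : ℝ)⁻¹ := by
          rw [Real.rpow_neg (by positivity), ← Real.sqrt_eq_rpow,
            Real.sqrt_mul_self hNpos.le]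
        rw [e4, pow_add, div_eq_mul_inv]
        have e5 := two_pow_pf p.1 g1
        have e6 := two_pow_pf p.2 g2
        rw [hp.2] at e5
        rw [← g3, hp.2] at e6
        refine mul_le_mul_of_nonneg_right ?_ (by positivity)
        calc (2 : ℝ) ^ (pf p.1).card * 2 ^ (pf p.2).card
            ≤ (N.divisors.card : ℝ) ^ n * (N.divisors.card : ℝ) ^ n :=
              mul_le_mul e5 e6 (by positivity) (by positivity)
          _ = (N.divisors.card : ℝ) ^ (2 * n) := by rw [← pow_add, two_mul]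
      have e7 : 0 ≤ Real.log (nm p.1 * nm p.2) := by
        rw [e1, e2]
        exact Real.log_nonneg (by nlinarith)
      have e8 : Real.log (nm p.1 * nm p.2) ≤ 2 * Real.log H := by
        rw [e1, e2, Real.log_mul (by positivity) (by positivity)]
        have := Real.log_le_log hNpos hNH
        linarith
      have e9 : (1 + Real.log (nm p.1 * nm p.2)) ^ 2 ≤ 4 * (1 + Real.log H) ^ 2 := by
        have : (4 : ℝ) * (1 + Real.log H) ^ 2 = (2 * (1 + Real.log H)) ^ 2 := by ring
        rw [this]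
        exact pow_le_pow_left₀ (by linarith) (by linarith) 2
      exact mul_le_mul e3 e9 (by positivity) (by positivity)
    refine (Finset.sum_le_card_nsmul _ _ _ h2).trans ?_
    rw [nsmul_eq_mul]
    have h3 : ((X.filter (fun p => Ideal.absNorm p.1 = N)).card : ℝ) ≤
        (N.divisors.card : ℝ) ^ (2 * n) := by
      have k1 : X.filter (fun p => Ideal.absNorm p.1 = N) ⊆
          (X.filter (fun p => Ideal.absNorm p.1 = N)).image Prod.fst ×ˢ
          (X.filter (fun p => Ideal.absNorm p.1 = N)).image Prod.snd := by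
        intro p hp
        rw [Finset.mem_product]
        exact ⟨Finset.mem_image_of_mem _ hp, Finset.mem_image_of_mem _ hp⟩
      have k2 := Finset.card_le_card k1
      rw [Finset.card_product] at k2
      have k3 : ((X.filter (fun p => Ideal.absNorm p.1 = N)).image Prod.fst).card ≤ cnt K N := by
        refine card_le_cnt _ _ fun I hI => ?_
        obtain ⟨p, hp, rfl⟩ := Finset.mem_image.1 hI
        exact (Finset.mem_filter.1 hp).2
      have k4 : ((X.filter (fun p => Ideal.absNorm p.1 = N)).image Prod.snd).card ≤ cnt K N := by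
        refine card_le_cnt _ _ fun I hI => ?_
        obtain ⟨p, hp, rfl⟩ := Finset.mem_image.1 hI
        rw [Finset.mem_filter] at hp
        rw [← (hX p hp.1).2.2.1, hp.2]
      have k5 := dv_cnt K N hN0
      have k6 : ((X.filter (fun p => Ideal.absNorm p.1 = N)).card : ℝ) ≤
          (cnt K N : ℝ) * cnt K N := by
        exact_mod_cast k2.trans (Nat.mul_le_mul k3 k4)
      refine k6.trans ?_
      calc (cnt K N : ℝ) * cnt K N ≤ (N.divisors.card : ℝ) ^ n * (N.divisors.card : ℝ) ^ n :=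
            mul_le_mul k5 k5 (by positivity) (by positivity)
        _ = (N.divisors.card : ℝ) ^ (2 * n) := by rw [← pow_add, two_mul]
    calc ((X.filter (fun p => Ideal.absNorm p.1 = N)).card : ℝ) *
          ((N.divisors.card : ℝ) ^ (2 * n) / N * (4 * (1 + Real.log H) ^ 2))
        ≤ (N.divisors.card : ℝ) ^ (2 * n) *
          ((N.divisors.card : ℝ) ^ (2 * n) / N * (4 * (1 + Real.log H) ^ 2)) :=
          mul_le_mul_of_nonneg_right h3 (by positivity)
      _ = ((N.divisors.card : ℝ) ^ (4 * n) / N) * (4 * (1 + Real.log H) ^ 2) := by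
          have : (N.divisors.card : ℝ) ^ (4 * n) =
              (N.divisors.card : ℝ) ^ (2 * n) * (N.divisors.card : ℝ) ^ (2 * n) := by
            rw [← pow_add]; congr 1; ring
          rw [this]; ring
  refine (Finset.sum_le_sum h1).trans ?_
  rw [← Finset.sum_mul]
  have h4 := sum_tau ⌊H⌋₊ (4 * n)
  have hf1 : (1 : ℝ) ≤ (⌊H⌋₊ : ℝ) := by exact_mod_cast Nat.one_le_floor_iff H |>.2 hH
  have hf2 : (⌊H⌋₊ : ℝ) ≤ H := Nat.floor_le (by linarith)
  have h5 : (1 + Real.log (⌊H⌋₊ : ℝ)) ^ (2 ^ (4 * n)) ≤ (1 + Real.log H) ^ (2 ^ (4 * n)) := by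
    refine pow_le_pow_left₀ ?_ ?_ _
    · have := Real.log_nonneg hf1
      linarith
    · have := Real.log_le_log (by linarith) hf2
      linarith
  calc (∑ N ∈ Finset.Icc 1 ⌊H⌋₊, (N.divisors.card : ℝ) ^ (4 * n) / N) *
        (4 * (1 + Real.log H) ^ 2)
      ≤ (1 + Real.log H) ^ (2 ^ (4 * n)) * (4 * (1 + Real.log H) ^ 2) :=
        mul_le_mul_of_nonneg_right (h4.trans h5) (by positivity)
    _ = 4 * (1 + Real.log H) ^ (2 + 2 ^ (4 * n)) := by rw [pow_add]; ring

end Pool.Agent.H39.SM
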