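import Pool.Agent.H23.SM.Targets

/-!
MP_52e316_nt, board sm2_modules, row OC: the sums over the differences of a given size at one
frequency.
-/

set_option autoImplicit false

open NumberField NumberField.InfinitePlace

namespace Pool.Agent.H39.SM.OC

open Pool.Agent.H27.TM Pool.Agent.H23.SM
open Pool.Agent.H31.SW (DD PP dK)

private lemma DD_nonneg {K : Type} [Field K] [NumberField K] (L : Pool.Agent.H25.HK.FI K)
    (y : InfinitePlace K → ℝ) : 0 ≤ DD L y := by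
  unfold DD
  refine div_nonneg (Real.exp_pos _).le ?_
  exact_mod_cast FractionalIdeal.absNorm_nonneg L

theorem pf_OC (hP1 : M_P1) (hP2 : S_P2) : S_OC := by
  intro n ε q Ψ hn hε hq hΨ
  obtain ⟨N, hN, h2⟩ := hP2 n ε hn hε
  obtain ⟨C₁, C, hC₁, hC, h1⟩ := hP1 n q Ψ N hn hq hΨ hN
  obtain ⟨C₂, hC₂, h3⟩ := h2 C₁ hC₁
  refine ⟨C * C₂ * 2, by positivity, ?_⟩
  intro K _ _ hK L y ω r G α τ c hL hω hG hcls
  have hG3 : ∀ v : InfinitePlace K, 0 ≤ 2 * G v ^ 3 := fun v => by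
    have := (hG v).1
    positivity
  have hS : Spc ({()} : Finset Unit) (fun _ => c) G 1 := by
    intro c₀
    have h : ((({()} : Finset Unit).filter fun _ => ∀ v, ‖c v - c₀ v‖ ≤ G v).card) ≤ 1 :=
      (Finset.card_filter_le _ _).trans (by simp)
    exact_mod_cast h
  have h := h1 K hK L y ω r G α Unit {()} (fun _ => c) _ hL hω
    (fun v => ⟨(hG v).1, (hG v).2.1, (hG v).2.2.1, (hG v).2.2.2.1⟩)
    (fun i hi v => hcls.real v)
    (fun Q b hQ hb => h3 K hK L y ω G α τ Unit {()} (fun _ => c) 1 Q b hL hω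
      (fun v => ⟨(hG v).1, (hG v).2.1, (hG v).2.2.1, (hG v).2.2.2.1, (hG v).2.2.2.2.le⟩)
      (fun i _ => hcls) (fun i _ j _ v => by
        rw [sub_self, norm_zero]
        exact hG3 v) hS le_rfl hQ hb)
  rw [Finset.sum_singleton, Finset.card_singleton] at h
  refine h.trans ?_
  have hPG : 0 < PP G := by
    unfold PP
    exact Finset.prod_pos fun v _ => pow_pos (by linarith [(hG v).1]) _
  have hPt : PP τ = PP G ^ 3 := by
    unfold PP
    rw [← Finset.prod_pow]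
    refine Finset.prod_congr rfl fun v _ => ?_
    rw [← (hG v).2.2.2.2]
    ring
  have hPτ : 0 < PP τ := by
    rw [hPt]
    positivity
  have e1 : PP τ ^ (1 / 2 : ℝ) * PP G ^ (-(3 / 2) : ℝ) = 1 := by
    rw [hPt, ← Real.rpow_natCast (PP G) 3, ← Real.rpow_mul hPG.le, ← Real.rpow_add hPG]
    norm_num
  have hDD := DD_nonneg L y
  have hq0 : 0 ≤ DD L y / PP τ := div_nonneg hDD hPτ.le
  have hpe : 0 ≤ PP τ ^ ε := (Real.rpow_pos_of_pos hPτ ε).le
  rw [e1, Nat.cast_one, Real.one_rpow]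
  have hb : C₂ * (1 * dK K ^ 2 * PP τ ^ ε * (1 * 1 + 1 * (1 + DD L y / PP τ))) ≤
      C₂ * 2 * (dK K ^ 2 * PP τ ^ ε * (1 + DD L y / PP τ)) := by
    have h5 : 0 ≤ C₂ * (dK K ^ 2 * PP τ ^ ε) := by positivity
    nlinarith [mul_nonneg h5 hq0]
  calc C * (DD L y * (C₂ * (1 * dK K ^ 2 * PP τ ^ ε * (1 * 1 + 1 * (1 + DD L y / PP τ)))))
      ≤ C * (DD L y * (C₂ * 2 * (dK K ^ 2 * PP τ ^ ε * (1 + DD L y / PP τ)))) := by
        gcongr
    _ = C * C₂ * 2 * (DD L y * (dK K ^ 2 * PP τ ^ ε * (1 + DD L y / PP τ))) := by ring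

end Pool.Agent.H39.SM.OC
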